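import Mathlib
import Pool.Agent.helper33.WD.Defs

/-!
# WD project, module ZF: the Dirichlet series of `ζ · mob N - 1`
-/

set_option autoImplicit false

namespace Pool.Agent.helper33.WD

open Complex

/-- wd:ZF  -/
theorem cf_norm_le (N n : ℕ) : ‖cf N n‖ ≤ n.divisors.card := by
  unfold cf
  split_ifs with h
  · simp
  · calc ‖∑ d ∈ n.divisors, if d ≤ N then (ArithmeticFunction.moebius d : ℂ) else 0‖
        ≤ ∑ d ∈ n.divisors, ‖if d ≤ N then (ArithmeticFunction.moebius d : ℂ) else 0‖ :=
          norm_sum_le _ _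
      _ ≤ ∑ _d ∈ n.divisors, (1 : ℝ) := by
          apply Finset.sum_le_sum
          intro d _
          split_ifs
          · rw [Complex.norm_intCast]
            exact_mod_cast ArithmeticFunction.abs_moebius_le_one
          · simp
      _ = n.divisors.card := by simp

/-- the truncated Moebius function -/
private noncomputable def ma (N : ℕ) (n : ℕ) : ℂ :=
  if n ≤ N then (ArithmeticFunction.moebius n : ℂ) else 0

private lemma ZF_conv (N n : ℕ) :
    (LSeries.convolution 1 (ma N)) n = ∑ d ∈ n.divisors, ma N d := by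
  rw [LSeries.convolution_def]
  simp only [Pi.one_apply, one_mul]
  exact Nat.sum_divisorsAntidiagonal' (f := fun _ b => ma N b)

private lemma ZF_term (f : ℕ → ℂ) {s : ℂ} (hs : s ≠ 0) (n : ℕ) :
    LSeries.term f s n = f n * (n : ℂ) ^ (-s) := by
  rcases Nat.eq_zero_or_pos n with rfl | hn
  · simp [LSeries.term_zero, Complex.zero_cpow (neg_ne_zero.mpr hs)]
  · rw [LSeries.term_of_ne_zero (by omega), Complex.cpow_neg, div_eq_mul_inv]

theorem cf_summable (N : ℕ) {s : ℂ} (hs : 1 < s.re) : Summable fun n : ℕ => cf N n * (n : ℂ) ^ (-s) := by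
  have hs0 : s ≠ 0 := by rintro rfl; simp at hs; linarith
  have h1 : LSeriesSummable (LSeries.convolution 1 1) s :=
    (LSeriesSummable_one_iff.mpr hs).convolution (LSeriesSummable_one_iff.mpr hs)
  refine Summable.of_norm_bounded h1.norm ?_
  intro n
  rw [ZF_term _ hs0, norm_mul, norm_mul]
  gcongr
  have h2 : (LSeries.convolution (1 : ℕ → ℂ) 1) n = n.divisors.card := by
    rw [LSeries.convolution_def]
    simp only [Pi.one_apply, mul_one]
    rw [Nat.sum_divisorsAntidiagonal (f := fun _ _ => (1 : ℂ))]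
    simp
  rw [h2, Complex.norm_natCast]
  exact cf_norm_le N n

private lemma ZF_cf {N : ℕ} (hN : 1 ≤ N) (n : ℕ) :
    cf N n = (LSeries.convolution 1 (ma N)) n - if n = 1 then 1 else 0 := by
  rw [ZF_conv]
  rcases Nat.lt_or_ge N n with h | h
  · rw [cf, if_neg (by omega), if_neg (by omega), sub_zero]
    rfl
  · rw [cf, if_pos h]
    rcases Nat.eq_zero_or_pos n with rfl | hn
    · simp
    · have e : ∑ d ∈ n.divisors, ma N d = ∑ d ∈ n.divisors, (ArithmeticFunction.moebius d : ℂ) := by
        apply Finset.sum_congr rfl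
        intro d hd
        rw [ma, if_pos ((Nat.divisor_le hd).trans h)]
      have h2 : ∑ d ∈ n.divisors, ArithmeticFunction.moebius d = if n = 1 then 1 else 0 := by
        rw [← ArithmeticFunction.coe_zeta_mul_apply, ArithmeticFunction.coe_zeta_mul_moebius,
          ArithmeticFunction.one_apply]
      rw [e, ← Int.cast_sum, h2]
      split_ifs <;> simp

theorem zeta_mob_sub_one {N : ℕ} (hN : 1 ≤ N) {s : ℂ} (hs : 1 < s.re) :
    riemannZeta s * mob N s - 1 = ∑' n : ℕ, cf N n * (n : ℂ) ^ (-s) := by
  have hs0 : s ≠ 0 := by rintro rfl; simp at hs; linarith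
  have ha0 : ∀ n ∉ Finset.Icc 1 N, ma N n * (n : ℂ) ^ (-s) = 0 := by
    intro n hn
    rcases Nat.eq_zero_or_pos n with rfl | hn0
    · simp [ma]
    · rw [Finset.mem_Icc] at hn
      rw [ma, if_neg (by omega), zero_mul]
  have hmob : mob N s = ∑' n : ℕ, ma N n * (n : ℂ) ^ (-s) := by
    rw [tsum_eq_sum ha0, mob]
    apply Finset.sum_congr rfl
    intro n hn
    rw [Finset.mem_Icc] at hn
    rw [ma, if_pos hn.2]
  have haS : LSeriesSummable (ma N) s := by
    unfold LSeriesSummable
    have : LSeries.term (ma N) s = fun n : ℕ => ma N n * (n : ℂ) ^ (-s) := by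
      funext n; exact ZF_term _ hs0 n
    rw [this]
    exact summable_of_ne_finset_zero ha0
  have hL : LSeries (LSeries.convolution 1 (ma N)) s = riemannZeta s * mob N s := by
    rw [LSeries_convolution' (LSeriesSummable_one_iff.mpr hs) haS, LSeries_one_eq_riemannZeta hs,
      hmob, LSeries]
    congr 1
    exact tsum_congr fun n => ZF_term _ hs0 n
  have hcS : Summable fun n : ℕ => (LSeries.convolution 1 (ma N)) n * (n : ℂ) ^ (-s) := by
    have h := (LSeriesSummable_one_iff.mpr hs).convolution haS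
    unfold LSeriesSummable at h
    have e : LSeries.term (LSeries.convolution 1 (ma N)) s = fun n : ℕ => (LSeries.convolution 1 (ma N)) n * (n : ℂ) ^ (-s) := by
      funext n; exact ZF_term _ hs0 n
    rwa [e] at h
  have hδ : ∑' n : ℕ, (if n = 1 then (1 : ℂ) else 0) * (n : ℂ) ^ (-s) = 1 := by
    rw [tsum_eq_single 1]
    · simp
    · intro n hn; simp [hn]
  have hδS : Summable fun n : ℕ => (if n = 1 then (1 : ℂ) else 0) * (n : ℂ) ^ (-s) := by
    apply summable_of_ne_finset_zero (s := {1})
    intro n hn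
    rw [Finset.mem_singleton] at hn
    simp [hn]
  rw [← hL, LSeries]
  conv_lhs => rw [← hδ]
  rw [tsum_congr fun n => ZF_term (LSeries.convolution 1 (ma N)) hs0 n, ← hcS.tsum_sub hδS]
  apply tsum_congr
  intro n
  rw [ZF_cf hN]
  ring

end Pool.Agent.helper33.WD
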